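import Pool.Agent.H76.QE.Targets

/-! Row GSU of the board `qd_modules`. -/

set_option autoImplicit false

namespace Pool.Agent.H67.QD

open Finset Pool.Agent.H76.QE
open Pool.Agent.H73.OX (conj_std)

theorem sum_std (p : ℕ) [Fact p.Prime] (c : ZMod p) :
    ∑ x : ZMod p, (ZMod.stdAddChar (x * c) : ℂ) = if c = 0 then (p : ℂ) else 0 := by
  classical
  have h := AddChar.sum_mulShift (R := ZMod p) (R' := ℂ) c (ZMod.isPrimitive_stdAddChar p)
  rw [h]
  split_ifs <;> simp [ZMod.card]

theorem pf_GSU : T_GSU := by
  classical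
  intro p _ hp a b hab
  by_cases hb : b = 0
  · have ha : a ≠ 0 := by
      rcases hab with h | h
      · exact h
      · exact absurd hb h
    have h1 : ∑ x : ZMod p, (ZMod.stdAddChar (a * x + b * x ^ 2) : ℂ) = 0 := by
      have h2 := sum_std p a
      rw [if_neg ha] at h2
      rw [← h2]
      refine sum_congr rfl fun x _ => ?_
      rw [hb, zero_mul, add_zero, mul_comm]
    rw [h1, norm_zero]
    simp
  · have h2 : (2 : ZMod p) ≠ 0 := by
      intro h
      have h3 : ((2 : ℕ) : ZMod p) = 0 := by exact_mod_cast h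
      rw [ZMod.natCast_eq_zero_iff] at h3
      have := Nat.le_of_dvd (by norm_num) h3
      omega
    have h1 : ((‖∑ x : ZMod p, (ZMod.stdAddChar (a * x + b * x ^ 2) : ℂ)‖ ^ 2 : ℝ) : ℂ) =
        ((p : ℝ) : ℂ) := by
      push_cast
      rw [← Complex.mul_conj']
      calc (∑ x : ZMod p, (ZMod.stdAddChar (a * x + b * x ^ 2) : ℂ)) *
            (starRingEnd ℂ) (∑ y : ZMod p, (ZMod.stdAddChar (a * y + b * y ^ 2) : ℂ))
          = ∑ y : ZMod p, ∑ x : ZMod p,
              (ZMod.stdAddChar ((a * x + b * x ^ 2) + -(a * y + b * y ^ 2)) : ℂ) := by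
            rw [map_sum, sum_mul_sum, sum_comm]
            refine sum_congr rfl fun y _ => sum_congr rfl fun x _ => ?_
            rw [conj_std, ← AddChar.map_add_eq_mul]
        _ = ∑ y : ZMod p, ∑ d : ZMod p,
              (ZMod.stdAddChar (a * d + b * d ^ 2) : ℂ) * ZMod.stdAddChar (y * (2 * b * d)) := by
            refine sum_congr rfl fun y _ => ?_
            rw [← Equiv.sum_comp (Equiv.addRight y)]
            refine sum_congr rfl fun d _ => ?_
            rw [← AddChar.map_add_eq_mul]
            congr 1
            simp only [Equiv.coe_addRight]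
            ring
        _ = ∑ d : ZMod p, (ZMod.stdAddChar (a * d + b * d ^ 2) : ℂ) *
              ∑ y : ZMod p, (ZMod.stdAddChar (y * (2 * b * d)) : ℂ) := by
            rw [sum_comm]
            exact sum_congr rfl fun d _ => (mul_sum _ _ _).symm
        _ = (p : ℂ) := by
            rw [sum_eq_single 0]
            · rw [sum_std]
              simp
            · intro d _ hd
              rw [sum_std, if_neg, mul_zero]
              exact mul_ne_zero (mul_ne_zero h2 hb) hd
            · intro h
              exact absurd (mem_univ _) h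
    have h4 : ‖∑ x : ZMod p, (ZMod.stdAddChar (a * x + b * x ^ 2) : ℂ)‖ ^ 2 = (p : ℝ) := by
      exact_mod_cast h1
    rw [h4]

end Pool.Agent.H67.QD
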