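import Pool.Agent.H76.QE.Targets

/-! Row PSV of the board `qd_modules`. -/

set_option autoImplicit false

namespace Pool.Agent.H67.QD

open Finset Pool.Agent.H76.QE
open Pool.Agent.H73.OX (ch conj_ch ch_add_left sum_ch)

theorem pf_PSV : T_PSV := by
  classical
  intro p N _ V a f hf
  have h1 : ((∑ z, f z ^ 2 : ℝ) : ℂ) = (((p : ℝ) ^ N * ∑ x ∈ V, ‖a x‖ ^ 2 : ℝ) : ℂ) := by
    push_cast
    calc ∑ z, ((f z : ℝ) : ℂ) ^ 2
        = ∑ z, (∑ x ∈ V, a x * ch x z) * (starRingEnd ℂ) (∑ y ∈ V, a y * ch y z) := by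
          refine sum_congr rfl fun z _ => ?_
          rw [← hf z, Complex.conj_ofReal, sq]
      _ = ∑ z, ∑ x ∈ V, ∑ y ∈ V, a x * (starRingEnd ℂ) (a y) * ch (x + -y) z := by
          refine sum_congr rfl fun z _ => ?_
          rw [map_sum, sum_mul_sum]
          refine sum_congr rfl fun x _ => sum_congr rfl fun y _ => ?_
          rw [map_mul, conj_ch, ch_add_left]
          ring
      _ = ∑ x ∈ V, ∑ y ∈ V, a x * (starRingEnd ℂ) (a y) * ∑ z, ch (x + -y) z := by
          rw [sum_comm]
          refine sum_congr rfl fun x _ => ?_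
          rw [sum_comm]
          exact sum_congr rfl fun y _ => (mul_sum _ _ _).symm
      _ = ∑ x ∈ V, (p : ℂ) ^ N * (‖a x‖ : ℂ) ^ 2 := by
          refine sum_congr rfl fun x hx => ?_
          rw [sum_eq_single x]
          · rw [sum_ch, if_pos (by simp), Complex.mul_conj']
            ring
          · intro y _ hy
            rw [sum_ch, if_neg, mul_zero]
            intro h
            exact hy (by rw [← sub_eq_add_neg, sub_eq_zero] at h; exact h.symm)
          · intro h
            exact absurd hx h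
      _ = (p : ℂ) ^ N * ∑ x ∈ V, (‖a x‖ : ℂ) ^ 2 := (mul_sum _ _ _).symm
  exact_mod_cast h1

end Pool.Agent.H67.QD
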