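import Pool.Agent.H76.QE.Targets

/-! Row SCH of the board `qd_modules`. -/

set_option autoImplicit false

namespace Pool.Agent.H67.QD

open Finset Pool.Agent.H76.QE

theorem pf_SCH : T_SCH := by
  intro ι V k β h1 h2 a
  have key : ‖∑ x ∈ V, ∑ y ∈ V, a x * (starRingEnd ℂ) (a y) * k x y‖ ≤
      β * ∑ x ∈ V, ‖a x‖ ^ 2 := by
    calc ‖∑ x ∈ V, ∑ y ∈ V, a x * (starRingEnd ℂ) (a y) * k x y‖
        ≤ ∑ x ∈ V, ∑ y ∈ V, ‖a x * (starRingEnd ℂ) (a y) * k x y‖ :=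
          (norm_sum_le _ _).trans (sum_le_sum fun x _ => norm_sum_le _ _)
      _ ≤ ∑ x ∈ V, ∑ y ∈ V, (‖a x‖ ^ 2 / 2 * ‖k x y‖ + ‖a y‖ ^ 2 / 2 * ‖k x y‖) := by
          refine sum_le_sum fun x _ => sum_le_sum fun y _ => ?_
          rw [norm_mul, norm_mul, RCLike.norm_conj]
          have h3 := norm_nonneg (k x y)
          nlinarith [mul_nonneg (sq_nonneg (‖a x‖ - ‖a y‖)) h3]
      _ = ∑ x ∈ V, ‖a x‖ ^ 2 / 2 * ∑ y ∈ V, ‖k x y‖ +
            ∑ y ∈ V, ‖a y‖ ^ 2 / 2 * ∑ x ∈ V, ‖k x y‖ := by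
          simp only [sum_add_distrib]
          congr 1
          · exact sum_congr rfl fun x _ => (mul_sum _ _ _).symm
          · rw [sum_comm]
            exact sum_congr rfl fun x _ => (mul_sum _ _ _).symm
      _ ≤ ∑ x ∈ V, ‖a x‖ ^ 2 / 2 * β + ∑ y ∈ V, ‖a y‖ ^ 2 / 2 * β := by
          refine add_le_add ?_ ?_
          · exact sum_le_sum fun x hx => mul_le_mul_of_nonneg_left (h1 x hx) (by positivity)
          · exact sum_le_sum fun x hx => mul_le_mul_of_nonneg_left (h2 x hx) (by positivity)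
      _ = β * ∑ x ∈ V, ‖a x‖ ^ 2 := by
          rw [← sum_add_distrib, mul_sum]
          exact sum_congr rfl fun x _ => by ring
  have h4 := Complex.abs_re_le_norm (∑ x ∈ V, ∑ y ∈ V, a x * (starRingEnd ℂ) (a y) * k x y)
  have h5 := neg_abs_le (∑ x ∈ V, ∑ y ∈ V, a x * (starRingEnd ℂ) (a y) * k x y).re
  linarith

end Pool.Agent.H67.QD
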